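import Mathlib

set_option autoImplicit false

/-!
Sets without induced path on four vertices: such a set of size at least two is disconnected or its
complement is (cograph theorem), for an arbitrary symmetric relation, loops are ignored.
-/

namespace Pool.Agent.H78.CG

open Finset

variable {X : Type} [DecidableEq X]

/-- no induced path on four vertices inside `D` -/
def Free (A : X → X → Prop) (D : Finset X) : Prop :=
  ∀ a ∈ D, ∀ b ∈ D, ∀ c ∈ D, ∀ d ∈ D, A a b → A b c → A c d → ¬ A a c → ¬ A a d → ¬ A b d → False

/-- `D` is the disjoint union of two nonempty sets without edges between them -/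
def Cut (A : X → X → Prop) (D : Finset X) : Prop :=
  ∃ S, S ⊆ D ∧ S.Nonempty ∧ (D \ S).Nonempty ∧ ∀ x ∈ S, ∀ y ∈ D \ S, ¬ A x y

/-- adding one vertex to a disconnected set -/
theorem core {A : X → X → Prop} (hs : ∀ x y, A x y → A y x) {D : Finset X} {v : X} (hv : v ∉ D)
    (hf : Free A (insert v D)) (hc : Cut A D) (hnc : ¬ Cut A (insert v D)) :
    ∀ y ∈ D, A v y := by
  classical
  intro y hy
  by_contra hvy
  -- closed sets containing y
  obtain ⟨S, hSD, hSn, hSc, hSe⟩ := hc
  set F : Finset (Finset X) := D.powerset.filter fun K =>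
    y ∈ K ∧ ∀ x ∈ K, ∀ z ∈ D \ K, ¬ A x z with hF
  have hDF : D ∈ F := by
    rw [hF, mem_filter]
    exact ⟨mem_powerset.2 (Subset.refl _), hy, fun x _ z hz => by simp at hz⟩
  obtain ⟨K, hKF, hKmin⟩ := exists_min_image F (fun K => K.card) ⟨D, hDF⟩
  rw [hF, mem_filter, mem_powerset] at hKF
  obtain ⟨hKD, hyK, hKe⟩ := hKF
  have hmin : ∀ K', K' ⊆ D → y ∈ K' → (∀ x ∈ K', ∀ z ∈ D \ K', ¬ A x z) → K.card ≤ K'.card := by
    intro K' h1 h2 h3
    exact hKmin K' (by rw [hF, mem_filter, mem_powerset]; exact ⟨h1, h2, h3⟩)
  -- K is a proper subset of D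
  have hproper : (D \ K).Nonempty := by
    by_contra hne
    rw [not_nonempty_iff_eq_empty, sdiff_eq_empty_iff_subset] at hne
    have hKeq : K = D := Subset.antisymm hKD hne
    subst hKeq
    by_cases hyS : y ∈ S
    · have h1 := hmin S hSD hyS hSe
      obtain ⟨t, ht⟩ := hSc
      rw [mem_sdiff] at ht
      have h2 : S ⊂ K := ⟨hSD, fun h => ht.2 (h ht.1)⟩
      have h3 := card_lt_card h2
      omega
    · have h1 := hmin (K \ S) sdiff_subset (mem_sdiff.2 ⟨hy, hyS⟩) (by
        intro x hx z hz haxz
        rw [mem_sdiff, mem_sdiff] at hz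
        have hzS : z ∈ S := by
          by_contra h
          exact hz.2 ⟨hz.1, h⟩
        exact hSe z hzS x hx (hs _ _ haxz))
      obtain ⟨t, ht⟩ := hSn
      have h2 : K \ S ⊂ K := ⟨sdiff_subset, fun h => (mem_sdiff.1 (h (hSD ht))).2 ht⟩
      have h3 := card_lt_card h2
      omega
  -- an edge inside K between neighbours and non-neighbours of v
  have hedge : ∃ x ∈ K, ∃ z ∈ K, A v x ∧ ¬ A v z ∧ A x z := by
    by_contra hno
    push Not at hno
    by_cases hemp : ∃ x ∈ K, A v x
    · obtain ⟨x0, hx0, hvx0⟩ := hemp
      set K' := K.filter fun z => ¬ A v z with hK'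
      have h1 := hmin K' ((filter_subset _ _).trans hKD) (mem_filter.2 ⟨hyK, hvy⟩) (by
        intro z hz t ht hzt
        rw [hK', mem_filter] at hz
        rw [mem_sdiff] at ht
        by_cases htK : t ∈ K
        · have hvt : A v t := by
            by_contra h
            exact ht.2 (mem_filter.2 ⟨htK, h⟩)
          exact hno t htK z hz.1 hvt hz.2 (hs _ _ hzt)
        · exact hKe z hz.1 t (mem_sdiff.2 ⟨ht.1, htK⟩) hzt)
      have h2 : K' ⊂ K := ⟨filter_subset _ _, fun h => (mem_filter.1 (h hx0)).2 hvx0⟩
      have h3 := card_lt_card h2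
      omega
    · push Not at hemp
      apply hnc
      refine ⟨K, hKD.trans (subset_insert _ _), ⟨y, hyK⟩, ?_, ?_⟩
      · refine ⟨v, mem_sdiff.2 ⟨mem_insert_self _ _, fun h => hv (hKD h)⟩⟩
      · intro x hx z hz hxz
        rw [mem_sdiff, mem_insert] at hz
        rcases hz.1 with rfl | hzD
        · exact hemp x hx (hs _ _ hxz)
        · exact hKe x hx z (mem_sdiff.2 ⟨hzD, hz.2⟩) hxz
  -- a neighbour of v outside K
  have hout : ∃ t ∈ D \ K, A v t := by
    by_contra hno
    push Not at hno
    apply hnc
    refine ⟨D \ K, sdiff_subset.trans (subset_insert _ _), hproper, ?_, ?_⟩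
    · exact ⟨v, mem_sdiff.2 ⟨mem_insert_self _ _, fun h => hv (mem_sdiff.1 h).1⟩⟩
    · intro x hx z hz hxz
      rw [mem_sdiff, mem_insert] at hz
      rcases hz.1 with rfl | hzD
      · exact hno x hx (hs _ _ hxz)
      · have hzK : z ∈ K := by
          by_contra h
          exact hz.2 (mem_sdiff.2 ⟨hzD, h⟩)
        exact hKe z hzK x hx (hs _ _ hxz)
  obtain ⟨x, hxK, z, hzK, hvx, hvz, hxz⟩ := hedge
  obtain ⟨t, ht, hvt⟩ := hout
  have htD := (mem_sdiff.1 ht).1
  refine hf t (mem_insert_of_mem htD) v (mem_insert_self _ _) x (mem_insert_of_mem (hKD hxK)) z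
    (mem_insert_of_mem (hKD hzK)) (hs _ _ hvt) hvx hxz ?_ ?_ hvz
  · intro h
    exact hKe x hxK t ht (hs _ _ h)
  · intro h
    exact hKe z hzK t ht (hs _ _ h)

/-- the complement of a free set is free -/
theorem Free.compl {A : X → X → Prop} (hs : ∀ x y, A x y → A y x) {D : Finset X} (h : Free A D) :
    Free (fun x y => ¬ A x y) D := by
  intro a ha b hb c hc d hd h1 h2 h3 h4 h5 h6
  have h4' : A a c := not_not.1 h4
  have h5' : A a d := not_not.1 h5
  have h6' : A b d := not_not.1 h6
  -- b - d - a - c
  exact h b hb d hd a ha c hc h6' (hs _ _ h5') h4' (fun e => h1 (hs _ _ e)) h2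
    (fun e => h3 (hs _ _ e))

theorem Free.mono {A : X → X → Prop} {D E : Finset X} (h : Free A D) (hE : E ⊆ D) : Free A E :=
  fun a ha b hb c hc d hd => h a (hE ha) b (hE hb) c (hE hc) d (hE hd)

/-- the cograph theorem -/
theorem cograph {A : X → X → Prop} (hs : ∀ x y, A x y → A y x) (D : Finset X) (h2 : 2 ≤ D.card)
    (hf : Free A D) : Cut A D ∨ Cut (fun x y => ¬ A x y) D := by
  classical
  induction D using Finset.induction_on with
  | empty => simp at h2
  | insert v D hv ih =>
    have hfD : Free A D := hf.mono (subset_insert _ _)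
    have hs' : ∀ x y, ¬ A x y → ¬ A y x := fun x y h e => h (hs _ _ e)
    by_cases hD : 2 ≤ D.card
    · by_contra hcon
      rw [not_or] at hcon
      have hDn : D.Nonempty := card_pos.1 (by omega)
      rcases ih hD hfD with hc | hc
      · have hall := core hs hv hf hc hcon.1
        apply hcon.2
        refine ⟨{v}, by simp, by simp, ?_, ?_⟩
        · obtain ⟨y, hy⟩ := hDn
          exact ⟨y, mem_sdiff.2 ⟨mem_insert_of_mem hy, fun h => hv (by rw [mem_singleton] at h; exact h ▸ hy)⟩⟩
        · intro x hx y hy hn
          rw [mem_singleton] at hx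
          subst hx
          rw [mem_sdiff, mem_insert, mem_singleton] at hy
          rcases hy.1 with h | h
          · exact hy.2 h
          · exact hn (hall y h)
      · have hall := core (A := fun x y => ¬ A x y) hs' hv (hf.compl hs) hc hcon.2
        apply hcon.1
        refine ⟨{v}, by simp, by simp, ?_, ?_⟩
        · obtain ⟨y, hy⟩ := hDn
          exact ⟨y, mem_sdiff.2 ⟨mem_insert_of_mem hy, fun h => hv (by rw [mem_singleton] at h; exact h ▸ hy)⟩⟩
        · intro x hx y hy hn
          rw [mem_singleton] at hx
          subst hx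
          rw [mem_sdiff, mem_insert, mem_singleton] at hy
          rcases hy.1 with h | h
          · exact hy.2 h
          · exact hall y h hn
    · have hD1 : D.card = 1 := by
        rw [card_insert_of_notMem hv] at h2
        omega
      obtain ⟨u, hu⟩ := card_eq_one.1 hD1
      subst hu
      have hvu : v ≠ u := fun e => hv (by simp [e])
      by_cases hA : A v u
      · right
        refine ⟨{v}, by simp, by simp, ⟨u, ?_⟩, ?_⟩
        · simp [hvu.symm]
        · intro x hx y hy hn
          rw [mem_singleton] at hx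
          subst hx
          have hyu : y = u := by
            rw [mem_sdiff, mem_insert, mem_singleton, mem_singleton] at hy
            rcases hy.1 with h | h
            · exact absurd h hy.2
            · exact h
          subst hyu
          exact hn hA
      · left
        refine ⟨{v}, by simp, by simp, ⟨u, ?_⟩, ?_⟩
        · simp [hvu.symm]
        · intro x hx y hy hn
          rw [mem_singleton] at hx
          subst hx
          have hyu : y = u := by
            rw [mem_sdiff, mem_insert, mem_singleton, mem_singleton] at hy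
            rcases hy.1 with h | h
            · exact absurd h hy.2
            · exact h
          subst hyu
          exact hA hn

end Pool.Agent.H78.CG
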